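import Mathlib

/-!
# Isolation of hyperbolic fixed points under small perturbations: the linear part
-/

open Set Filter Topology

namespace Pool.Agent.H678R3.Attr

variable {V : Type*} [NormedAddCommGroup V] [NormedSpace ℝ V]

/-- Cone argument: a bounded function `v` on a set carrying a surjective self-map `T` such that
`v (T a)` is `A (v a)` up to a small relative error vanishes, if `A` is hyperbolic. -/
theorem cone {α : Type*} (T : α → α) (hT : Function.Surjective T) (v : α → V) (C : ℝ)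
    (hC : ∀ a, ‖v a‖ ≤ C) (A P : V →L[ℝ] V) (K ε : ℝ) (hK : 0 < K) (hKe : 8 * (K * ε) ≤ 1)
    (hcomm : ∀ x, A (P x) = P (A x))
    (hs : ∀ x, 4 * ‖A (P x)‖ ≤ ‖P x‖) (hu : ∀ x, 4 * ‖x - P x‖ ≤ ‖A (x - P x)‖)
    (hP : ∀ x, ‖P x‖ ≤ K * ‖x‖) (hQ : ∀ x, ‖x - P x‖ ≤ K * ‖x‖)
    (h : ∀ a, ‖v (T a) - A (v a)‖ ≤ ε * ‖v a‖) (a : α) : v a = 0 := by
  have hv : ∀ x : V, ‖x‖ ≤ ‖P x‖ + ‖x - P x‖ := by
    intro x
    have := norm_add_le (P x) (x - P x)
    rwa [add_sub_cancel] at this
  -- the two basic inequalities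
  have h1 : ∀ a, ‖P (v (T a))‖ ≤ (1 / 4) * ‖P (v a)‖ + (1 / 8) * (‖P (v a)‖ + ‖v a - P (v a)‖) := by
    intro a
    have e1 : P (v (T a)) = A (P (v a)) + P (v (T a) - A (v a)) := by
      rw [map_sub, hcomm]; abel
    have e2 := norm_add_le (A (P (v a))) (P (v (T a) - A (v a)))
    rw [← e1] at e2
    have e3 := hP (v (T a) - A (v a))
    have e4 := hs (v a)
    have e5 := mul_le_mul_of_nonneg_left (h a) hK.le
    have e6 : K * (ε * ‖v a‖) ≤ (1 / 8) * ‖v a‖ := by
      have := norm_nonneg (v a)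
      nlinarith
    have e7 := hv (v a)
    linarith
  have h2 : ∀ a, 4 * ‖v a - P (v a)‖ - (1 / 8) * (‖P (v a)‖ + ‖v a - P (v a)‖) ≤
      ‖v (T a) - P (v (T a))‖ := by
    intro a
    have e1 : A (v a - P (v a)) = (v (T a) - P (v (T a))) -
        ((v (T a) - A (v a)) - P (v (T a) - A (v a))) := by
      rw [map_sub, map_sub, hcomm]; abel
    have e2 := norm_sub_le (v (T a) - P (v (T a))) ((v (T a) - A (v a)) - P (v (T a) - A (v a)))
    rw [← e1] at e2
    have e3 := hQ (v (T a) - A (v a))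
    have e4 := hu (v a)
    have e5 := mul_le_mul_of_nonneg_left (h a) hK.le
    have e6 : K * (ε * ‖v a‖) ≤ (1 / 8) * ‖v a‖ := by
      have := norm_nonneg (v a)
      nlinarith
    have e7 := hv (v a)
    linarith
  -- the unstable component never dominates
  have h3 : ∀ a, ‖v a - P (v a)‖ ≤ ‖P (v a)‖ := by
    intro a
    by_contra hcon
    push Not at hcon
    have key : ∀ n : ℕ, ‖P (v (T^[n] a))‖ < ‖v (T^[n] a) - P (v (T^[n] a))‖ ∧
        (2 : ℝ) ^ n * ‖v a - P (v a)‖ ≤ ‖v (T^[n] a) - P (v (T^[n] a))‖ := by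
      intro n
      induction n with
      | zero => exact ⟨hcon, by simp⟩
      | succ n ih =>
        obtain ⟨i1, i2⟩ := ih
        rw [Function.iterate_succ_apply']
        have j1 := h1 (T^[n] a)
        have j2 := h2 (T^[n] a)
        have j3 := norm_nonneg (P (v (T^[n] a)))
        refine ⟨by linarith, ?_⟩
        rw [pow_succ]
        linarith
    have hpos : 0 < ‖v a - P (v a)‖ := lt_of_le_of_lt (norm_nonneg _) hcon
    obtain ⟨n, hn⟩ := pow_unbounded_of_one_lt (K * C / ‖v a - P (v a)‖) (one_lt_two (α := ℝ))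
    have k1 := (key n).2
    have k2 := hQ (v (T^[n] a))
    have k3 := mul_le_mul_of_nonneg_left (hC (T^[n] a)) hK.le
    rw [div_lt_iff₀ hpos] at hn
    linarith
  have h4 : ∀ a, ‖P (v (T a))‖ ≤ (1 / 2) * ‖P (v a)‖ := by
    intro a
    have := h1 a
    have := h3 a
    linarith
  have h5 : ∀ (n : ℕ) (a : α), ‖P (v a)‖ ≤ (1 / 2) ^ n * (K * C) := by
    intro n
    induction n with
    | zero =>
      intro a
      have k2 := hP (v a)
      have k3 := mul_le_mul_of_nonneg_left (hC a) hK.le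
      simp only [pow_zero, one_mul]
      linarith
    | succ n ih =>
      intro a
      obtain ⟨b, rfl⟩ := hT a
      have := h4 b
      have := ih b
      rw [pow_succ]
      linarith
  have h6 : ‖P (v a)‖ ≤ 0 := by
    have ht : Tendsto (fun n : ℕ => ((1 : ℝ) / 2) ^ n * (K * C)) atTop (𝓝 (0 * (K * C))) :=
      (tendsto_pow_atTop_nhds_zero_of_lt_one (by norm_num) (by norm_num)).mul_const _
    rw [zero_mul] at ht
    exact ge_of_tendsto' ht fun n => h5 n a
  have h7 := h3 a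
  have h8 := hv (v a)
  have h9 : ‖v a‖ ≤ 0 := by linarith
  exact norm_le_zero_iff.1 h9

/-- `C^1` closeness of iterates near a point. -/
theorem iter_close (F : V → V) (hF : ContDiff ℝ 1 F) (z : V) (N : ℕ) : ∀ ε : ℝ, 0 < ε →
    ∃ δ : ℝ, 0 < δ ∧ ∀ H : V → V, ContDiff ℝ 1 H → (∀ y, ‖H y - F y‖ ≤ δ) →
      (∀ y, ‖fderiv ℝ H y - fderiv ℝ F y‖ ≤ δ) → ∀ y, ‖y - z‖ ≤ δ →
        ‖H^[N] y - F^[N] z‖ ≤ ε ∧ ‖fderiv ℝ (H^[N]) y - fderiv ℝ (F^[N]) z‖ ≤ ε := by
  induction N with
  | zero =>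
    intro ε hε
    refine ⟨ε, hε, fun H _ _ _ y hy => ⟨hy, ?_⟩⟩
    have h0 : ∀ (G : V → V) (x : V), fderiv ℝ (G^[0]) x = ContinuousLinearMap.id ℝ V :=
      fun G x => fderiv_id
    rw [h0, h0, sub_self, norm_zero]
    exact hε.le
  | succ N ih =>
    intro ε hε
    set B := ‖fderiv ℝ (F^[N]) z‖ + 1 with hB
    set D := ‖fderiv ℝ F (F^[N] z)‖ + 1 with hD
    have hB0 : 0 < B := by positivity
    have hD0 : 0 < D := by positivity
    set e := min (ε / 2) (ε / (4 * B)) with he
    have he0 : 0 < e := by positivity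
    have hc1 : ContinuousAt F (F^[N] z) := hF.continuous.continuousAt
    have hc2 : ContinuousAt (fderiv ℝ F) (F^[N] z) :=
      (hF.continuous_fderiv one_ne_zero).continuousAt
    obtain ⟨δ1, hδ1, H1⟩ := Metric.continuousAt_iff.1 hc1 e he0
    obtain ⟨δ2, hδ2, H2⟩ := Metric.continuousAt_iff.1 hc2 e he0
    set e' := min (min (δ1 / 2) (δ2 / 2)) (min 1 (ε / (2 * D))) with he'
    have he'0 : 0 < e' := by positivity
    obtain ⟨δ0, hδ0, H0⟩ := ih e' he'0
    refine ⟨min δ0 e, lt_min hδ0 he0, ?_⟩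
    intro H hH hc hd y hy
    obtain ⟨a1, a2⟩ := H0 H hH (fun y => (hc y).trans (min_le_left _ _))
      (fun y => (hd y).trans (min_le_left _ _)) y (hy.trans (min_le_left _ _))
    have b1 : e' ≤ δ1 / 2 := (min_le_left _ _).trans (min_le_left _ _)
    have b2 : e' ≤ δ2 / 2 := (min_le_left _ _).trans (min_le_right _ _)
    have b3 : e' ≤ 1 := (min_le_right _ _).trans (min_le_left _ _)
    have b4 : e' ≤ ε / (2 * D) := (min_le_right _ _).trans (min_le_right _ _)
    have c1 : dist (H^[N] y) (F^[N] z) < δ1 := by rw [dist_eq_norm]; linarith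
    have c2 : dist (H^[N] y) (F^[N] z) < δ2 := by rw [dist_eq_norm]; linarith
    have d1 := H1 c1
    have d2 := H2 c2
    rw [dist_eq_norm] at d1 d2
    have e1 : e ≤ ε / 2 := min_le_left _ _
    have e2 : e ≤ ε / (4 * B) := min_le_right _ _
    have hc' := (hc (H^[N] y)).trans (min_le_right δ0 e)
    have hd' := (hd (H^[N] y)).trans (min_le_right δ0 e)
    constructor
    · rw [Function.iterate_succ_apply', Function.iterate_succ_apply']
      have := norm_add_le (H (H^[N] y) - F (H^[N] y)) (F (H^[N] y) - F (F^[N] z))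
      rw [sub_add_sub_cancel] at this
      linarith
    · have hdH : ∀ k, Differentiable ℝ (H^[k]) := fun k => (hH.differentiable one_ne_zero).iterate k
      have hdF : ∀ k, Differentiable ℝ (F^[k]) := fun k => (hF.differentiable one_ne_zero).iterate k
      rw [Function.iterate_succ', Function.iterate_succ',
        fderiv_comp y ((hH.differentiable one_ne_zero) _) (hdH N y),
        fderiv_comp z ((hF.differentiable one_ne_zero) _) (hdF N z)]
      have f1 : ‖fderiv ℝ H (H^[N] y) - fderiv ℝ F (F^[N] z)‖ ≤ e + e := by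
        have := norm_add_le (fderiv ℝ H (H^[N] y) - fderiv ℝ F (H^[N] y))
          (fderiv ℝ F (H^[N] y) - fderiv ℝ F (F^[N] z))
        rw [sub_add_sub_cancel] at this
        linarith
      have f2 : ‖fderiv ℝ (H^[N]) y‖ ≤ B := by
        have := norm_add_le (fderiv ℝ (H^[N]) y - fderiv ℝ (F^[N]) z) (fderiv ℝ (F^[N]) z)
        rw [sub_add_cancel] at this
        linarith
      have f3 : (fderiv ℝ H (H^[N] y)).comp (fderiv ℝ (H^[N]) y) -
          (fderiv ℝ F (F^[N] z)).comp (fderiv ℝ (F^[N]) z) =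
          (fderiv ℝ H (H^[N] y) - fderiv ℝ F (F^[N] z)).comp (fderiv ℝ (H^[N]) y) +
          (fderiv ℝ F (F^[N] z)).comp (fderiv ℝ (H^[N]) y - fderiv ℝ (F^[N]) z) := by
        ext x
        simp
      rw [f3]
      refine (norm_add_le _ _).trans ?_
      have g1 := ContinuousLinearMap.opNorm_comp_le
        (fderiv ℝ H (H^[N] y) - fderiv ℝ F (F^[N] z)) (fderiv ℝ (H^[N]) y)
      have g2 := ContinuousLinearMap.opNorm_comp_le
        (fderiv ℝ F (F^[N] z)) (fderiv ℝ (H^[N]) y - fderiv ℝ (F^[N]) z)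
      have g3 : ‖fderiv ℝ H (H^[N] y) - fderiv ℝ F (F^[N] z)‖ * ‖fderiv ℝ (H^[N]) y‖ ≤
          (e + e) * B := mul_le_mul f1 f2 (norm_nonneg _) (by positivity)
      have g4 : ‖fderiv ℝ F (F^[N] z)‖ * ‖fderiv ℝ (H^[N]) y - fderiv ℝ (F^[N]) z‖ ≤ D * e' :=
        mul_le_mul (by rw [hD]; linarith) a2 (norm_nonneg _) hD0.le
      have g5 : (e + e) * B ≤ ε / 2 := by
        have : e * B ≤ ε / (4 * B) * B := mul_le_mul_of_nonneg_right e2 hB0.le
        have h' : ε / (4 * B) * B = ε / 4 := by field_simp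
        linarith
      have g6 : D * e' ≤ ε / 2 := by
        have : D * e' ≤ D * (ε / (2 * D)) := mul_le_mul_of_nonneg_left b4 hD0.le
        have h' : D * (ε / (2 * D)) = ε / 2 := by field_simp
        linarith
      linarith

end Pool.Agent.H678R3.Attr
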