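import Pool.Agent.H637R2.TD.Main

/-!
# Finitely many attractors from a finite chain recurrent set
-/

open Set Filter Topology MeasureTheory

namespace Pool.Agent.H678R3.Attr

open Pool.Agent.H728R2.OS Pool.Agent.H637R2.TD

/-- A positive lower bound for finitely many positive numbers. -/
theorem fin_min {α : Type*} {S : Set α} (hS : S.Finite) (e : α → ℝ) (he : ∀ x ∈ S, 0 < e x) :
    ∃ ε : ℝ, 0 < ε ∧ ∀ x ∈ S, ε ≤ e x := by
  rcases S.eq_empty_or_nonempty with rfl | hne
  · exact ⟨1, one_pos, by simp⟩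
  · obtain ⟨a, ha, hmin⟩ := hS.exists_minimalFor e S hne
    exact ⟨e a, he a ha, fun x hx => by
      by_contra hcon
      push Not at hcon
      exact absurd (hmin hx hcon.le) (not_le.2 hcon)⟩

/-- The points of a finite set are separated. -/
theorem separated {X : Type*} [MetricSpace X] {S : Set X} (hS : S.Finite) :
    ∃ ρ : ℝ, 0 < ρ ∧ ∀ s ∈ S, ∀ t ∈ S, dist s t < 2 * ρ → s = t := by
  classical
  have h1 : (S ×ˢ S).Finite := hS.prod hS
  obtain ⟨ε, hε, h⟩ := fin_min h1 (fun q => if q.1 = q.2 then 1 else dist q.1 q.2) (by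
    rintro ⟨s, t⟩ -
    dsimp only
    split_ifs with h
    · exact one_pos
    · exact dist_pos.2 h)
  refine ⟨ε / 2, half_pos hε, fun s hs t ht hd => ?_⟩
  by_contra hne
  have := h (s, t) ⟨hs, ht⟩
  simp only [if_neg hne] at this
  linarith

/-- If all cluster points of the orbit of `x` belong to a finite set, they belong to one orbit. -/
theorem tracking {X : Type*} [MetricSpace X] [CompactSpace X] (h : X → X) (hc : Continuous h)
    (S : Set X) (hS : S.Finite) (hm : MapsTo h S S) (x : X)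
    (hcl : omegaLim h x ⊆ S) : ∃ q ∈ S, omegaLim h x ⊆ range fun j : ℕ => h^[j] q := by
  obtain ⟨ρ, hρ, hsep⟩ := separated hS
  have hδ : ∀ s : X, ∃ δ : ℝ, 0 < δ ∧ ∀ y, dist y s < δ → dist (h y) (h s) < ρ := fun s =>
    Metric.continuousAt_iff.1 hc.continuousAt ρ hρ
  choose e he hce using hδ
  obtain ⟨δ', hδ', hmin⟩ := fin_min hS e fun s _ => he s
  set δ := min δ' ρ with hδdef
  have hδ0 : 0 < δ := lt_min hδ' hρ
  have hev : ∀ᶠ n : ℕ in atTop, ∃ s ∈ S, dist (h^[n] x) s < δ := by
    by_contra hcon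
    rw [not_eventually] at hcon
    have hcl' : IsClosed (⋃ s ∈ S, Metric.ball s δ)ᶜ :=
      (isOpen_biUnion fun s _ => Metric.isOpen_ball).isClosed_compl
    obtain ⟨y, hy, hy'⟩ := hcl'.isCompact.exists_mapClusterPt_of_frequently
      (l := atTop) (f := fun n : ℕ => h^[n] x) (hcon.mono fun n hn => by
        intro hmem
        obtain ⟨s, hs, hd⟩ := mem_iUnion₂.1 hmem
        exact hn ⟨s, hs, hd⟩)
    exact hy (mem_iUnion₂.2 ⟨y, hcl hy', Metric.mem_ball_self hδ0⟩)
  obtain ⟨n0, hn0⟩ := eventually_atTop.1 hev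
  choose s hs hd using fun k : ℕ => hn0 (n0 + k) (Nat.le_add_right _ _)
  have hstep : ∀ k, s (k + 1) = h (s k) := by
    intro k
    refine hsep _ (hs _) _ (hm (hs k)) ?_
    have h1 := hce (s k) (h^[n0 + k] x) ((hd k).trans_le ((min_le_left _ _).trans (hmin _ (hs k))))
    rw [← Function.iterate_succ_apply' h] at h1
    have h2 := (hd (k + 1)).trans_le (min_le_right _ _)
    have h3 : n0 + (k + 1) = (n0 + k).succ := rfl
    rw [h3] at h2
    have h4 := dist_triangle_left (s (k + 1)) (h (s k)) (h^[(n0 + k).succ] x)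
    linarith
  have hall : ∀ k, s k = h^[k] (s 0) := by
    intro k
    induction k with
    | zero => rfl
    | succ k ih => rw [hstep, ih, Function.iterate_succ_apply']
  refine ⟨s 0, hs 0, fun y hy => ?_⟩
  have hyS := hcl hy
  have hfr := mapClusterPt_iff_frequently.1 hy _ (Metric.ball_mem_nhds y hρ)
  obtain ⟨n, hn, hny⟩ := (frequently_atTop.1 hfr) n0
  obtain ⟨k, rfl⟩ := Nat.exists_eq_add_of_le hn
  refine ⟨k, ?_⟩
  change h^[k] (s 0) = y
  rw [← hall]
  refine hsep _ (hs k) _ hyS ?_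
  have h2 := (hd k).trans_le (min_le_right _ _)
  have h4 := dist_triangle_left (s k) y (h^[n0 + k] x)
  rw [Metric.mem_ball] at hny
  linarith

private theorem orbit_finite {X : Type*} (f : X → X) {q : X} {n : ℕ} (hn : 0 < n)
    (hq : f^[n] q = q) : (range fun j : ℕ => f^[j] q).Finite := by
  have hmul : ∀ j : ℕ, f^[n * j] q = q := by
    intro j
    induction j with
    | zero => rfl
    | succ j ih => rw [Nat.mul_succ, Function.iterate_add_apply, hq, ih]
  refine (Set.finite_range fun j : Fin n => f^[(j : ℕ)] q).subset ?_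
  rintro _ ⟨j, rfl⟩
  refine ⟨⟨j % n, Nat.mod_lt _ hn⟩, ?_⟩
  change f^[j % n] q = f^[j] q
  conv_rhs => rw [← Nat.mod_add_div j n]
  rw [Function.iterate_add_apply, hmul]

private theorem orbit_image {X : Type*} (f : X → X) {q : X} {n : ℕ} (hn : 0 < n)
    (hq : f^[n] q = q) : f '' (range fun j : ℕ => f^[j] q) = range fun j : ℕ => f^[j] q := by
  ext y
  constructor
  · rintro ⟨_, ⟨j, rfl⟩, rfl⟩
    exact ⟨j + 1, Function.iterate_succ_apply' f j q⟩
  · rintro ⟨j, rfl⟩
    refine ⟨f^[j + (n - 1)] q, ⟨j + (n - 1), rfl⟩, ?_⟩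
    rw [← Function.iterate_succ_apply' f]
    have : (j + (n - 1)).succ = j + n := by omega
    rw [this, Function.iterate_add_apply, hq]

/-- Finitely many attractors from finitely many periodic orbits absorbing all orbits. -/
theorem attractors_of {d : ℕ} (f : Torus d ≃ₜ Torus d) (S : Set (Torus d)) (hS : S.Finite)
    (hper : ∀ q ∈ S, ∃ n, 0 < n ∧ f^[n] q = q)
    (hconv : ∀ p, ∃ q ∈ S, omegaLim f p ⊆ range fun j : ℕ => f^[j] q) :
    FinitelyManyAttractors f := by
  let O : Torus d → Set (Torus d) := fun q => range fun j : ℕ => f^[j] q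
  let A : Set (Set (Torus d)) := {Λ | Λ ∈ O '' S ∧ 0 < volume (basin f Λ)}
  have hOfin : (O '' S).Finite := Set.Finite.image O hS
  have hA : A.Finite := hOfin.subset fun Λ hΛ => hΛ.1
  obtain ⟨n, Λ, -, hΛ⟩ := hA.fin_param
  refine ⟨n, Λ, fun i => ?_, ?_⟩
  · have hi : Λ i ∈ A := hΛ ▸ mem_range_self i
    obtain ⟨⟨q, hqS, hqΛ⟩, hpos⟩ := hi
    obtain ⟨m, hm, hq⟩ := hper q hqS
    refine ⟨?_, ?_, hpos⟩
    · rw [← hqΛ]
      exact orbit_image f hm hq
    · rw [← hqΛ]
      exact ⟨q, ⟨0, rfl⟩, subset_closure⟩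
  · have hsub : (⋃ i, basin f (Λ i))ᶜ ⊆ ⋃ Λ' ∈ (O '' S) \ A, basin f Λ' := by
      intro p hp
      obtain ⟨q, hqS, hlim⟩ := hconv p
      have hb : p ∈ basin f (O q) := hlim
      have hO : O q ∈ O '' S := ⟨q, hqS, rfl⟩
      refine mem_iUnion₂.2 ⟨O q, ⟨hO, fun hqA => hp ?_⟩, hb⟩
      rw [← hΛ] at hqA
      obtain ⟨i, hi⟩ := hqA
      exact mem_iUnion.2 ⟨i, hi ▸ hb⟩
    refine measure_mono_null hsub ?_
    have hcount : ((O '' S) \ A).Countable := (hOfin.subset sdiff_subset).countable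
    rw [measure_biUnion_null_iff hcount]
    rintro Λ' ⟨h1, h2⟩
    by_contra h0
    exact h2 ⟨h1, pos_iff_ne_zero.2 h0⟩

/-- The `ω`-limit points are nonwandering. -/
theorem omegaLim_subset {X : Type*} [TopologicalSpace X] (g : X ≃ₜ X) (x : X) :
    omegaLim g x ⊆ Omega g := by
  intro y hy U hU
  have hfr := mapClusterPt_iff_frequently.1 hy U hU
  obtain ⟨m, hmU⟩ := hfr.exists
  obtain ⟨n, hnm, hnU⟩ := (frequently_atTop'.1 hfr) m
  refine ⟨n - m, Nat.sub_pos_of_lt hnm, g^[n] x, ⟨g^[m] x, hmU, ?_⟩, hnU⟩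
  rw [← Function.iterate_add_apply, Nat.sub_add_cancel hnm.le]

/-- A homeomorphism of the torus with finite chain recurrent set has finitely many attractors. -/
theorem attractors_of_chainRec {d : ℕ} (f : Torus d ≃ₜ Torus d) (hfin : (ChainRec f).Finite) :
    FinitelyManyAttractors f := by
  have himg : f '' ChainRec f = ChainRec f := by
    ext y
    constructor
    · rintro ⟨x, hx, rfl⟩
      exact (chainRec_inv f x).2 hx
    · intro hy
      refine ⟨f.symm y, ?_, f.apply_symm_apply y⟩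
      rw [← chainRec_inv f, f.apply_symm_apply]
      exact hy
  refine attractors_of f (ChainRec f) hfin (fun q hq => ?_) fun p => ?_
  · exact periodic_of_finite f.injective hfin himg hq
  · exact tracking f f.continuous (ChainRec f) hfin (fun x hx => (chainRec_inv f x).2 hx) p
      ((omegaLim_subset f p).trans (omega_subset_chainRec f))

/-- Continuity of iterates with respect to the map and the point. -/
theorem iter_near {X : Type*} [MetricSpace X] (f : X → X) (hf : Continuous f) (N : ℕ) :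
    ∀ (p : X) (ε : ℝ), 0 < ε → ∃ δ : ℝ, 0 < δ ∧ ∀ h : X → X, (∀ x, dist (f x) (h x) < δ) →
      ∀ x, dist x p < δ → dist (h^[N] x) (f^[N] p) < ε := by
  induction N with
  | zero => exact fun p ε hε => ⟨ε, hε, fun h _ x hx => hx⟩
  | succ N ih =>
    intro p ε hε
    obtain ⟨δ1, hδ1, H1⟩ := Metric.continuousAt_iff.1 (hf.continuousAt (x := f^[N] p)) (ε / 2)
      (half_pos hε)
    obtain ⟨δ0, hδ0, H0⟩ := ih p δ1 hδ1
    refine ⟨min δ0 (ε / 2), lt_min hδ0 (half_pos hε), fun h hh x hx => ?_⟩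
    have h1 := H1 (H0 h (fun x => (hh x).trans_le (min_le_left _ _)) x
      (hx.trans_le (min_le_left _ _)))
    have h2 := (hh (h^[N] x)).trans_le (min_le_right _ _)
    rw [Function.iterate_succ_apply', Function.iterate_succ_apply']
    have h3 := dist_triangle_left (h (h^[N] x)) (f (f^[N] p)) (f (h^[N] x))
    linarith

end Pool.Agent.H678R3.Attr
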