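import Pool.Agent.H678R3.Attr.Cone
import Pool.Agent.H678R3.Attr.Top
import Pool.Agent.H637R2.TD.Stable

/-!
# Homeomorphisms `C^1` close to one with a finite hyperbolic chain recurrent set
-/

open Set Filter Topology MeasureTheory

namespace Pool.Agent.H678R3.Attr

open Pool.Agent.H728R2.OS Pool.Agent.H637R2.TD
open Pool.Agent.H728R2.OS.FIXFIN

variable {d : ℕ}

/-- Lifts of nearby points of the torus. -/
theorem lift_near (z : Fin d → ℝ) (x : Torus d) (δ : ℝ) (h : dist x (toTorus z) < δ) :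
    ∃ X : Fin d → ℝ, toTorus X = x ∧ ‖X - z‖ < δ := by
  obtain ⟨a, rfl⟩ := tor_surj x
  refine ⟨fun i => a i - round (a i - z i), ?_, ?_⟩
  · funext i
    change ((a i - (round (a i - z i) : ℤ) : ℝ) : UnitAddCircle) = (a i : UnitAddCircle)
    rw [AddCircle.coe_sub]
    have : (((round (a i - z i) : ℤ) : ℝ) : UnitAddCircle) = 0 :=
      (AddCircle.coe_eq_zero_iff (1 : ℝ)).2 ⟨round (a i - z i), by simp⟩
    rw [this, sub_zero]
  · refine (pi_norm_lt_iff (lt_of_le_of_lt dist_nonneg h)).2 fun i => ?_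
    have h1 : dist (toTorus a i) (toTorus z i) ≤ dist (toTorus a) (toTorus z) :=
      dist_le_pi_dist _ _ i
    have h2 : dist (toTorus a i) (toTorus z i) = |a i - z i - round (a i - z i)| := by
      rw [dist_eq_norm]
      change ‖((a i : ℝ) : UnitAddCircle) - ((z i : ℝ) : UnitAddCircle)‖ = _
      rw [← AddCircle.coe_sub, UnitAddCircle.norm_eq]
    rw [h2] at h1
    have h3 : (fun i => a i - (round (a i - z i) : ℝ)) i - z i =
        a i - z i - round (a i - z i) := by ring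
    rw [Pi.sub_apply, h3, Real.norm_eq_abs]
    exact lt_of_le_of_lt h1 h

/-- The derivatives at the periodic points of large period. -/
theorem hyp_data {T : Torus d ≃ₜ Torus d} (hS : IsHyperbolic toTorus T (Per T)) :
    ∃ F : (Fin d → ℝ) → (Fin d → ℝ), ContDiff ℝ 1 F ∧ IsLift toTorus F T ∧ ∃ n0 : ℕ,
      ∀ m : ℕ, n0 ≤ m → 0 < m → ∀ z : Fin d → ℝ, T^[m] (toTorus z) = toTorus z →
        ∃ P : (Fin d → ℝ) →L[ℝ] (Fin d → ℝ),
          (∀ x, fderiv ℝ (F^[m]) z (P x) = P (fderiv ℝ (F^[m]) z x)) ∧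
          (∀ x, 4 * ‖fderiv ℝ (F^[m]) z (P x)‖ ≤ ‖P x‖) ∧
          ∀ x, 4 * ‖x - P x‖ ≤ ‖fderiv ℝ (F^[m]) z (x - P x)‖ := by
  obtain ⟨F, G, hF, hG, hFl, hGl, P, c, μ, hc, hμ0, hμ1, -, hPP, hcomm, hbd⟩ := hS
  refine ⟨F, hF, hFl, ?_⟩
  have ht : Tendsto (fun n : ℕ => 4 * (c * μ ^ n)) atTop (𝓝 (4 * (c * 0))) :=
    ((tendsto_pow_atTop_nhds_zero_of_lt_one hμ0.le hμ1).const_mul c).const_mul 4
  rw [mul_zero, mul_zero] at ht
  obtain ⟨n0, hn0⟩ := eventually_atTop.1 (ht.eventually (gt_mem_nhds one_pos))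
  refine ⟨n0, fun m hmn hm z hx => ⟨P (toTorus z), ?_⟩⟩
  have hsmall : 4 * (c * μ ^ m) < 1 := hn0 m hmn
  have hSz : ∀ j, T^[j] (toTorus z) ∈ Per T := by
    intro j
    refine ⟨m, hm, ?_⟩
    rw [← Function.iterate_add_apply, add_comm, Function.iterate_add_apply, hx]
  have hzS : toTorus z ∈ Per T := hSz 0
  set A := fderiv ℝ (F^[m]) z with hA
  have hAP : ∀ v, A (P (toTorus z) v) = P (toTorus z) (A v) := by
    intro v
    have h1 := comm_iter hF hFl hcomm hSz m
    rw [hx] at h1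
    exact congrArg (fun L : (Fin d → ℝ) →L[ℝ] (Fin d → ℝ) => L v) h1
  have hBA : ∀ v, fderiv ℝ (G^[m]) z (A v) = v := by
    intro v
    have h1 : DifferentiableAt ℝ (G^[m]) (F^[m] z) :=
      ((cd_iter hG m).differentiable one_ne_zero).differentiableAt
    have h2 : DifferentiableAt ℝ (F^[m]) z :=
      ((cd_iter hF m).differentiable one_ne_zero).differentiableAt
    have h3 : fderiv ℝ (G^[m]) (F^[m] z) = fderiv ℝ (G^[m]) z := by
      have h4 : F^[m] z = z + (F^[m] z - z) := by abel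
      conv_lhs => rw [h4]
      exact shift (cd_iter hG m).continuous (lift_iter hGl m)
        (by rw [tor_sub, lift_iter hFl m, hx, sub_self]) z
    have h5 : fderiv ℝ (G^[m] ∘ F^[m]) z = fderiv ℝ (G^[m]) z ∘L A := by
      rw [fderiv_comp z h1 h2, h3]
    have h6 : fderiv ℝ (G^[m] ∘ F^[m]) z = ContinuousLinearMap.id ℝ _ := by
      have hcont : Continuous fun u => G^[m] (F^[m] u) - u :=
        ((cd_iter hG m).continuous.comp (cd_iter hF m).continuous).sub continuous_id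
      have hli : ∀ y, T.symm^[m] (T^[m] y) = y :=
        (T.left_inv.iterate m : Function.LeftInverse (T.symm^[m]) (T^[m]))
      have h7 := loc_const hcont (fun u => by
        rw [tor_sub, lift_iter hGl m, lift_iter hFl m, hli, sub_self]) z
      have h8 : (G^[m] ∘ F^[m]) =ᶠ[𝓝 z] fun u => u + (G^[m] (F^[m] z) - z) := by
        filter_upwards [h7] with u hu
        rw [← hu]
        show G^[m] (F^[m] u) = _
        abel
      rw [h8.fderiv_eq (𝕜 := ℝ), fderiv_add_const]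
      exact fderiv_fun_id
    rw [h5] at h6
    exact congrArg (fun L : (Fin d → ℝ) →L[ℝ] (Fin d → ℝ) => L v) h6
  refine ⟨hAP, fun x => ?_, fun x => ?_⟩
  · have h1 := (hbd m z hzS x).1
    have h2 := norm_nonneg (P (toTorus z) x)
    calc 4 * ‖A (P (toTorus z) x)‖ ≤ 4 * (c * μ ^ m * ‖P (toTorus z) x‖) :=
          mul_le_mul_of_nonneg_left h1 (by norm_num)
      _ = (4 * (c * μ ^ m)) * ‖P (toTorus z) x‖ := by ring
      _ ≤ 1 * ‖P (toTorus z) x‖ := mul_le_mul_of_nonneg_right hsmall.le h2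
      _ = ‖P (toTorus z) x‖ := one_mul _
  · have h1 := (hbd m z hzS (A x)).2
    have e : A x - P (toTorus z) (A x) = A (x - P (toTorus z) x) := by
      rw [map_sub, hAP]
    rw [e, hBA] at h1
    have h2 := norm_nonneg (A (x - P (toTorus z) x))
    calc 4 * ‖x - P (toTorus z) x‖ ≤ 4 * (c * μ ^ m * ‖A (x - P (toTorus z) x)‖) :=
          mul_le_mul_of_nonneg_left h1 (by norm_num)
      _ = (4 * (c * μ ^ m)) * ‖A (x - P (toTorus z) x)‖ := by ring
      _ ≤ 1 * ‖A (x - P (toTorus z) x)‖ := mul_le_mul_of_nonneg_right hsmall.le h2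
      _ = ‖A (x - P (toTorus z) x)‖ := one_mul _

/-- A `C^1` close homeomorphism has a lift `C^1` close to a given lift. -/
theorem close_lift {f : Torus d ≃ₜ Torus d} {F : (Fin d → ℝ) → (Fin d → ℝ)}
    (hF : ContDiff ℝ 1 F) (hFl : IsLift toTorus F f) {g : Torus d ≃ₜ Torus d} {η : ℝ}
    (hg : CkClose toTorus 1 η f g) : ∃ H : (Fin d → ℝ) → (Fin d → ℝ), ContDiff ℝ 1 H ∧
      IsLift toTorus H g ∧ (∀ y, ‖H y - F y‖ ≤ η) ∧ ∀ y, ‖fderiv ℝ H y - fderiv ℝ F y‖ ≤ η := by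
  obtain ⟨F1, G1, hF1, hG1, hF1l, hG1l, hcl⟩ := hg
  have hF1' : ContDiff ℝ 1 F1 := by exact_mod_cast hF1
  have hG1' : ContDiff ℝ 1 G1 := by exact_mod_cast hG1
  obtain ⟨c, hc⟩ := lift_unique (isCov_toTorus d) hF.continuous hF1'.continuous
    (fun u => by rw [hFl u, hF1l u])
  have hc0 : toTorus c = 0 := by
    have h1 : c = F1 0 - F 0 := by rw [hc 0]; abel
    rw [h1, tor_sub, hF1l, hFl, sub_self]
  have hF1eq : F1 = fun y => F y + c := funext hc
  refine ⟨fun y => G1 y - c, hG1'.sub contDiff_const, fun u => ?_, fun y => ?_, fun y => ?_⟩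
  · rw [tor_sub, hG1l u, hc0, sub_zero]
  · have h1 := hcl 0 (by norm_num) y
    rw [norm_iteratedFDeriv_zero] at h1
    have h2 : G1 y - c - F y = G1 y - F1 y := by rw [hc y]; abel
    rw [h2]
    exact h1.le
  · have h2 := hcl 1 le_rfl y
    rw [← zero_add 1, ← norm_iteratedFDeriv_fderiv, norm_iteratedFDeriv_zero] at h2
    have h3 : fderiv ℝ (fun w => G1 w - F1 w) y = fderiv ℝ G1 y - fderiv ℝ F1 y :=
      fderiv_fun_sub ((hG1'.differentiable one_ne_zero) y) ((hF1'.differentiable one_ne_zero) y)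
    have h4 : fderiv ℝ F1 y = fderiv ℝ F y := by
      rw [hF1eq]
      exact fderiv_add_const c
    have h5 : fderiv ℝ (fun y => G1 y - c) y = fderiv ℝ G1 y := fderiv_sub_const c
    rw [h3, h4] at h2
    rw [h5]
    exact h2.le

/-- Isolation: near a hyperbolic periodic point of `f`, an invariant set of a `C^1` close
homeomorphism has at most one point. -/
theorem isolate {f : Torus d ≃ₜ Torus d} (F : (Fin d → ℝ) → (Fin d → ℝ)) (hF : ContDiff ℝ 1 F)
    (hFl : IsLift toTorus F f) (N : ℕ) (z : Fin d → ℝ) (hz : f^[N] (toTorus z) = toTorus z)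
    (P : (Fin d → ℝ) →L[ℝ] (Fin d → ℝ))
    (h1 : ∀ x, fderiv ℝ (F^[N]) z (P x) = P (fderiv ℝ (F^[N]) z x))
    (h2 : ∀ x, 4 * ‖fderiv ℝ (F^[N]) z (P x)‖ ≤ ‖P x‖)
    (h3 : ∀ x, 4 * ‖x - P x‖ ≤ ‖fderiv ℝ (F^[N]) z (x - P x)‖) :
    ∃ δ : ℝ, 0 < δ ∧ ∀ g : Torus d ≃ₜ Torus d, CkClose toTorus 1 δ f g →
      ∀ Λ : Set (Torus d), (∀ x ∈ Λ, dist x (toTorus z) < δ) → (g^[N]) '' Λ = Λ →
        Λ.Subsingleton := by
  set K : ℝ := 1 + ‖P‖ with hK
  have hK0 : 0 < K := by positivity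
  set ε : ℝ := min (1 / 4) (1 / (8 * K)) with hε
  have hε0 : 0 < ε := by positivity
  obtain ⟨δ0, hδ0, H0⟩ := iter_close F hF z N ε hε0
  refine ⟨min δ0 (1 / 4), by positivity, ?_⟩
  intro g hg Λ hΛ hinv
  obtain ⟨H, hH, hHl, hc, hd⟩ := close_lift hF hFl hg
  have hH0 := H0 H hH (fun y => (hc y).trans (min_le_left _ _))
    (fun y => (hd y).trans (min_le_left _ _))
  -- the lifts
  choose! X hX1 hX2 using fun x (hx : x ∈ Λ) => lift_near z x _ (hΛ x hx)
  have hgΛ : ∀ x ∈ Λ, g^[N] x ∈ Λ := fun x hx => hinv ▸ mem_image_of_mem _ hx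
  set A := fderiv ℝ (F^[N]) z with hA
  have hball : ∀ x ∈ Λ, ‖X x - z‖ ≤ δ0 := fun x hx => (hX2 x hx).le.trans (min_le_left _ _)
  -- the lift of the image
  have him : ∀ x ∈ Λ, H^[N] (X x) - (F^[N] z - z) = X (g^[N] x) := by
    intro x hx
    have e1 : toTorus (H^[N] (X x) - (F^[N] z - z) - X (g^[N] x)) = 0 := by
      rw [tor_sub, tor_sub, tor_sub, lift_iter hHl, lift_iter hFl, hz, hX1 x hx,
        hX1 _ (hgΛ x hx), sub_self, sub_zero, sub_self]
    have e2 : ‖H^[N] (X x) - (F^[N] z - z) - X (g^[N] x)‖ < 1 := by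
      have a1 := (hH0 (X x) (hball x hx)).1
      have a2 := hX2 _ (hgΛ x hx)
      have a3 : H^[N] (X x) - (F^[N] z - z) - X (g^[N] x) =
          (H^[N] (X x) - F^[N] z) - (X (g^[N] x) - z) := by abel
      rw [a3]
      have a4 := norm_sub_le (H^[N] (X x) - F^[N] z) (X (g^[N] x) - z)
      have a5 : ε ≤ 1 / 4 := min_le_left _ _
      have a6 : min δ0 (1 / 4) ≤ 1 / 4 := min_le_right _ _
      linarith
    exact sub_eq_zero.1 (int_small e1 e2)
  -- the mean value inequality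
  have hmv : ∀ x ∈ Λ, ∀ y ∈ Λ,
      ‖(X (g^[N] x) - X (g^[N] y)) - A (X x - X y)‖ ≤ ε * ‖X x - X y‖ := by
    intro x hx y hy
    have hcv : Convex ℝ (Metric.closedBall z δ0) := convex_closedBall z δ0
    have b1 := hcv.norm_image_sub_le_of_norm_fderiv_le' (𝕜 := ℝ) (f := H^[N]) (φ := A) (C := ε)
      (x := X y) (y := X x)
      (fun w _ => (cd_iter hH N).differentiable one_ne_zero w)
      (fun w hw => (hH0 w (by rwa [mem_closedBall_iff_norm] at hw)).2)
      (by rw [mem_closedBall_iff_norm]; exact hball y hy)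
      (by rw [mem_closedBall_iff_norm]; exact hball x hx)
    rw [← him x hx, ← him y hy]
    have b2 : H^[N] (X x) - (F^[N] z - z) - (H^[N] (X y) - (F^[N] z - z)) - A (X x - X y) =
        H^[N] (X x) - H^[N] (X y) - A (X x - X y) := by abel
    rw [b2]
    exact b1
  -- the cone lemma on pairs
  have hQ : ∀ x : Fin d → ℝ, ‖x - P x‖ ≤ K * ‖x‖ := by
    intro x
    have c1 := norm_sub_le x (P x)
    have c2 := P.le_opNorm x
    rw [hK]
    linarith
  have hP : ∀ x : Fin d → ℝ, ‖P x‖ ≤ K * ‖x‖ := by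
    intro x
    have c2 := P.le_opNorm x
    have c3 := norm_nonneg x
    rw [hK]
    linarith
  have hKe : 8 * (K * ε) ≤ 1 := by
    have c1 : K * ε ≤ K * (1 / (8 * K)) := mul_le_mul_of_nonneg_left (min_le_right _ _) hK0.le
    have c2 : K * (1 / (8 * K)) = 1 / 8 := by field_simp
    linarith
  let T : Λ × Λ → Λ × Λ := fun a => (⟨g^[N] a.1, hgΛ _ a.1.2⟩, ⟨g^[N] a.2, hgΛ _ a.2.2⟩)
  have hT : Function.Surjective T := by
    rintro ⟨⟨x, hx⟩, ⟨y, hy⟩⟩
    rw [← hinv] at hx hy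
    obtain ⟨x', hx', rfl⟩ := hx
    obtain ⟨y', hy', rfl⟩ := hy
    exact ⟨(⟨x', hx'⟩, ⟨y', hy'⟩), rfl⟩
  intro x hx y hy
  have key := cone T hT (fun a => X a.1 - X a.2) 1 (fun a => by
      have c1 := hX2 a.1 a.1.2
      have c2 := hX2 a.2 a.2.2
      have c3 := norm_sub_le (X a.1 - z) (X a.2 - z)
      rw [sub_sub_sub_cancel_right] at c3
      have a6 : min δ0 (1 / 4) ≤ 1 / 4 := min_le_right _ _
      linarith) A P K ε hK0 hKe h1 h2 h3 hP hQ (fun a => hmv a.1 a.1.2 a.2 a.2.2)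
    (⟨x, hx⟩, ⟨y, hy⟩)
  have key' : X x = X y := sub_eq_zero.1 key
  rw [← hX1 x hx, ← hX1 y hy, key']

/-- Homeomorphisms `C^1` close to one whose chain recurrent set consists of finitely many
hyperbolic periodic points have finite chain recurrent sets. -/
theorem finite_open (f : Torus d ≃ₜ Torus d) (hfin : (Per f).Finite) (hsub : ChainRec f ⊆ Per f)
    (hh : IsHyperbolic toTorus f (Per f)) :
    ∃ η : ℝ, 0 < η ∧ ∀ g : Torus d ≃ₜ Torus d, CkClose toTorus 1 η f g →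
      (ChainRec g).Finite := by
  obtain ⟨F, hF, hFl, n0, hdata⟩ := hyp_data hh
  -- a common period
  obtain ⟨N, hN0, hNn, hN⟩ : ∃ N : ℕ, 0 < N ∧ n0 ≤ N ∧ ∀ p ∈ Per f, f^[N] p = p := by
    classical
    choose! n hn0 hn using fun p (hp : p ∈ Per f) => hp
    have hM0 : 0 < ∏ p ∈ hfin.toFinset, n p :=
      Finset.prod_pos fun p hp => hn0 p (hfin.mem_toFinset.1 hp)
    refine ⟨(∏ p ∈ hfin.toFinset, n p) * (n0 + 1), Nat.mul_pos hM0 (Nat.succ_pos _), ?_, ?_⟩
    · have := Nat.mul_le_mul_right (n0 + 1) hM0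
      simp only [Nat.succ_eq_add_one, zero_add, one_mul] at this
      omega
    · intro p hp
      obtain ⟨k, hk⟩ : n p ∣ (∏ p ∈ hfin.toFinset, n p) * (n0 + 1) :=
        (Finset.dvd_prod_of_mem n (hfin.mem_toFinset.2 hp)).mul_right _
      rw [hk, Function.iterate_mul]
      exact Function.iterate_fixed (hn p hp) k
  obtain ⟨ρ, hρ, hsep⟩ := separated hfin
  -- isolation
  have hiso : ∀ p : Torus d, ∃ δ : ℝ, 0 < δ ∧ (p ∈ Per f → ∀ g : Torus d ≃ₜ Torus d,
      CkClose toTorus 1 δ f g → ∀ Λ : Set (Torus d), (∀ x ∈ Λ, dist x p < δ) →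
        (g^[N]) '' Λ = Λ → Λ.Subsingleton) := by
    intro p
    by_cases hp : p ∈ Per f
    · obtain ⟨z, rfl⟩ := tor_surj p
      obtain ⟨P, a1, a2, a3⟩ := hdata N hNn hN0 z (hN _ hp)
      obtain ⟨δ, hδ, h⟩ := isolate F hF hFl N z (hN _ hp) P a1 a2 a3
      exact ⟨δ, hδ, fun _ => h⟩
    · exact ⟨1, one_pos, fun h => absurd h hp⟩
  choose e he hiso using hiso
  choose e' he' hnear using fun p : Torus d => iter_near f f.continuous N p ρ hρ
  obtain ⟨δ1, hδ1, hm1⟩ := fin_min hfin e fun p _ => he p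
  obtain ⟨δ2, hδ2, hm2⟩ := fin_min hfin e' fun p _ => he' p
  set δ := min (min δ1 δ2) ρ with hδdef
  have hδ0 : 0 < δ := by positivity
  obtain ⟨ε, hε, husc⟩ := chainRec_usc f (⋃ p ∈ Per f, Metric.ball p δ)
    (isOpen_biUnion fun p _ => Metric.isOpen_ball)
    (fun x hx => mem_biUnion (hsub hx) (Metric.mem_ball_self hδ0))
  refine ⟨min ε (min δ1 δ2), by positivity, fun g hg => ?_⟩
  have hdist : ∀ x, dist (f x) (g x) < min ε (min δ1 δ2) := fun x => dist_of_ckClose hg x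
  have hU := husc g fun x => (hdist x).trans_le (min_le_left _ _)
  have hinv : ∀ (n : ℕ) (x : Torus d), g^[n] x ∈ ChainRec g ↔ x ∈ ChainRec g := by
    intro n x
    induction n with
    | zero => rfl
    | succ n ih => rw [Function.iterate_succ_apply', chainRec_inv, ih]
  -- one step near the periodic points
  have hret : ∀ p ∈ Per f, ∀ x, dist x p < δ → dist (g^[N] x) p < ρ := by
    intro p hp x hx
    have h1 := hnear p g (fun x => ((hdist x).trans_le (min_le_right _ _)).trans_le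
      ((min_le_right _ _).trans (hm2 p hp))) x (hx.trans_le (((min_le_left _ _).trans
        (min_le_right _ _)).trans (hm2 p hp)))
    rwa [hN p hp] at h1
  have hsame : ∀ p ∈ Per f, ∀ q ∈ Per f, ∀ x, dist x p < δ → dist (g^[N] x) q < δ → q = p := by
    intro p hp q hq x hx hx'
    refine hsep q hq p hp ?_
    have h1 := hret p hp x hx
    have h2 := dist_triangle_left q p (g^[N] x)
    have h3 : δ ≤ ρ := min_le_right _ _
    linarith
  have hone : ∀ p ∈ Per f, ({x | x ∈ ChainRec g ∧ dist x p < δ} : Set (Torus d)).Subsingleton := by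
    intro p hp
    refine hiso p hp g ?_ _ (fun x hx => hx.2.trans_le (((min_le_left _ _).trans
      (min_le_left _ _)).trans (hm1 p hp))) ?_
    · exact ckClose_mono hg le_rfl (((min_le_right _ _).trans (min_le_left _ _)).trans (hm1 p hp))
    · ext y
      constructor
      · rintro ⟨x, ⟨hx, hxp⟩, rfl⟩
        have h1 : g^[N] x ∈ ChainRec g := (hinv N x).2 hx
        refine ⟨h1, ?_⟩
        obtain ⟨q, hq, hyq⟩ := mem_iUnion₂.1 (hU h1)
        have := hsame p hp q hq x hxp hyq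
        rw [← this]
        exact hyq
      · rintro ⟨hy, hyp⟩
        have hsurj : Function.Surjective (g^[N]) := g.surjective.iterate N
        obtain ⟨x, rfl⟩ := hsurj y
        have h1 : x ∈ ChainRec g := (hinv N x).1 hy
        obtain ⟨q, hq, hxq⟩ := mem_iUnion₂.1 (hU h1)
        have := hsame q hq p hp x hxq hyp
        exact ⟨x, ⟨h1, by rw [this]; exact hxq⟩, rfl⟩
  refine (hfin.biUnion fun p hp => (hone p hp).finite).subset fun x hx => ?_
  obtain ⟨p, hp, hxp⟩ := mem_iUnion₂.1 (hU hx)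
  exact mem_iUnion₂.2 ⟨p, hp, hx, hxp⟩

/-- Flag preserving diffeomorphisms are limits of diffeomorphisms around which all systems have
finitely many attractors. -/
theorem main {r : ℕ∞} (hr : 1 ≤ r) (f : Torus d ≃ₜ Torus d) (hf : IsFlagDiffeo r f) (k : ℕ)
    (hk : (k : ℕ∞) ≤ r) (ε : ℝ) (hε : 0 < ε) :
    ∃ g : Torus d ≃ₜ Torus d, IsFlagDiffeo r g ∧ CkClose toTorus k ε f g ∧
      ∃ η : ℝ, 0 < η ∧ ∀ h : Torus d ≃ₜ Torus d, CkClose toTorus 1 η g h →
        (ChainRec h).Finite ∧ FinitelyManyAttractors h := by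
  obtain ⟨g, hg, hc, hC, hH⟩ := density_close hr f hf k hk ε hε
  obtain ⟨η, hη, h⟩ := finite_open g hC.1 (chainRec_of_conv g hC) hH
  exact ⟨g, hg, hc, η, hη, fun g' hg' => ⟨h g' hg', attractors_of_chainRec g' (h g' hg')⟩⟩

end Pool.Agent.H678R3.Attr
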